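import Mathlib
import Pool.Agent.Q139.Orn.Defs
import Pool.Agent.Q139.Orn.Bridge

/-!
# An ornamentation lattice that is not the transitive closure of an oriented polytope graph

For the complete directed graph on three vertices (both arcs between any two different vertices)
the ornamentation lattice is the lattice of the 29 preorders on three points.  It is not isomorphic
to the transitive closure of the graph of a polytope oriented by a linear functional.

Idea of the proof.  At the vertex `0 ~ 1` of such a polytope there are at most six neighbours, three
below and three above, and the four-element intervals below and above it force the dimension of the
polytope to be at most four.  On the other hand, the six atoms and the nine elements with exactly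
two atoms below them give a subdivision of `K_{3,3}` in the vertex figure of the bottom vertex, so
the dimension is at least five.
-/

set_option autoImplicit false

namespace Pool.Agent.Results.MP_230865_co.CompleteThree

open Q139.Orn

/-- There are no `d`, no polytope `P` in `ℝ^d` and no linear functional `c`, nonconstant on every
edge of `P`, such that the poset of ornamentations of the complete directed graph on three vertices
is isomorphic to the transitive closure of the graph of `P` oriented by `c`. -/
theorem result : ¬ ∃ (d : ℕ) (P : Set (EuclideanSpace ℝ (Fin d)))
    (c : EuclideanSpace ℝ (Fin d) →ₗ[ℝ] ℝ), Realizes completeThree P c :=
  main

end Pool.Agent.Results.MP_230865_co.CompleteThree
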